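import Pool.Agent.Helper316_PR.Main

/-!
# Schneider's conjecture: the rank of the `p`-adic height pairing

Let `p ≥ 5` be a prime, let `E : y² = x³ + A x + B` be an elliptic curve with integral
coefficients and let `h` be its canonical `p`-adic height (`IsHeight`, see `Pool.Agent.Y732.Defs`:
the parallelogram law, and the logarithm of the `p`-adic sigma function over the denominator on the
points which reduce to the origin modulo `p` and to nonsingular points modulo all primes). If
`P 1, …, P r` are linearly independent points of `E(ℚ)`, then the matrix of the height pairing on
these points has rank at least `r / 2 - 1`. In particular the `p`-adic height does not vanish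
identically as soon as `E(ℚ)` has rank at least three.

This is the analogue of Waldschmidt's theorem on the `p`-adic rank of the units (Leopoldt's
conjecture up to a factor two). The proof looks at the determinant of the powers
`e (x + x') ^ (4 (p - 1))`, where `x`, `x'` run over the points of a box in the group generated by
the `P i`, and `e` is the square root of the denominator of the first coordinate. By the theory of
the real canonical height the determinant does not vanish and is not too large; by the properties of
the `p`-adic sigma function it is divisible by a very high power of `p` if the rank of the `p`-adic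
pairing is small.
-/

set_option autoImplicit false

namespace Pool.Agent.Results.MP_3550b5_nt.HeightPairingRank

open Pool.Agent.Y732

/-- **Theorem.** Let `p ≥ 5` be a prime, `E : y² = x³ + A x + B` an elliptic curve, `A` and `B`
integers, and `h` its canonical `p`-adic height. If the points `P i`, `i < r`, of `E(ℚ)` are linearly
independent, then `r ≤ 2 ρ + 2`, where `ρ` is the rank of the matrix of the `p`-adic height pairing
`h (P i + P j) - h (P i) - h (P j)`. -/
theorem result (p : ℕ) [Fact p.Prime] (hp5 : 5 ≤ p) (A B : ℤ) (hD : 4 * A ^ 3 + 27 * B ^ 2 ≠ 0)
    (h : (EQ A B).Point → ℚ_[p]) (hh : IsHeight p A B h) (r : ℕ) (P : Fin r → (EQ A B).Point)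
    (hP : LinearIndependent ℤ P) :
    r ≤ 2 * (Matrix.of fun i j => h (P i + P j) - h (P i) - h (P j)).rank + 2 :=
  Pool.Agent.Helper316_PR.rank_bound hp5 hD hh hP

end Pool.Agent.Results.MP_3550b5_nt.HeightPairingRank
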